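import Mathlib

/-!
# Every algebraic lattice is a relative congruence lattice in finite signature

There are a finite signature `F` (one constant, three unary operations, one binary operation) and a
quasivariety `K` of `F`-algebras, axiomatised by finitely many (in fact two) quasi-identities,
such that every algebraic lattice is isomorphic to the lattice of `K`-congruences of some
algebra in `K`.

Construction.  Let `S` be the set of compact elements of the algebraic lattice `L`.  The algebra
is `A = S × S` with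
`0 = (⊥, ⊥)`, `p (x, y) = (x, x)`, `q (x, y) = (y, y)`, `j (x, y) = (x ⊔ y, x ⊔ y)`, and
`d (a, b) = 0` if `a = b`, `d (a, b) = a` otherwise.
The quasi-identities are `p z ≈ 0 ∧ q z ≈ 0 → z ≈ 0` and `j z ≈ 0 → z ≈ 0`.
The relative congruences are the Rees-type congruences `(I × I)² ∪ Δ` for the ideals `I` of `S`.
-/

open FirstOrder FirstOrder.Language FirstOrder.Language.Structure

namespace Pool.Agent.Results.MP_f5a18c_al.EveryAlgebraicLattice

universe u

/-- A quasi-identity `(s₁ ≈ t₁ ∧ … ∧ sₙ ≈ tₙ) → s ≈ t` between terms of the signature `F`, in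
variables indexed by the natural numbers; the case of no premises is an identity. -/
structure QuasiIdentity (F : FirstOrder.Language.{0, 0}) where
  /-- The premises `sᵢ ≈ tᵢ`. -/
  premises : List (F.Term ℕ × F.Term ℕ)
  /-- The conclusion `s ≈ t`. -/
  conclusion : F.Term ℕ × F.Term ℕ

/-- The algebra `A` satisfies the quasi-identity `e`. -/
def QuasiIdentity.Holds {F : FirstOrder.Language.{0, 0}} (e : QuasiIdentity F) (A : Type u)
    [F.Structure A] : Prop :=
  ∀ v : ℕ → A, (∀ st ∈ e.premises, st.1.realize v = st.2.realize v) →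
    e.conclusion.1.realize v = e.conclusion.2.realize v

/-- The algebra `A` belongs to the quasivariety axiomatised by the set `Q` of quasi-identities. -/
def InQuasivariety {F : FirstOrder.Language.{0, 0}} (Q : Set (QuasiIdentity F)) (A : Type u)
    [F.Structure A] : Prop :=
  ∀ e ∈ Q, e.Holds A

/-- A congruence of the algebra `A`: an equivalence relation compatible with all operations. -/
structure Congruence (F : FirstOrder.Language.{0, 0}) (A : Type u) [F.Structure A] where
  /-- The equivalence relation. -/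
  rel : Setoid A
  /-- It is compatible with every operation. -/
  compat : ∀ {n : ℕ} (f : F.Functions n) (x y : Fin n → A),
    (∀ i, rel (x i) (y i)) → rel (funMap f x) (funMap f y)

section
variable {F : FirstOrder.Language.{0, 0}} {A : Type u} [F.Structure A]

/-- The carrier of the quotient algebra `A/θ`. -/
def Congruence.Quot (θ : Congruence F A) : Type u := Quotient θ.rel

/-- The class of `a` in `A/θ`. -/
def Congruence.cls (θ : Congruence F A) (a : A) : θ.Quot := Quotient.mk θ.rel a

/-- The algebra structure of `A/θ`: each operation is computed on representatives (by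
compatibility the choice of representatives does not matter, see `funMap_cls`). -/
noncomputable instance [F.IsAlgebraic] (θ : Congruence F A) : F.Structure θ.Quot where
  funMap f x := θ.cls (funMap f (fun i => Quotient.out (x i)))
  RelMap r := isEmptyElim r

end

/-- The set of relative congruences (`K`-congruences) of the algebra `A`, where `K` is the
quasivariety axiomatised by `Q`: the congruences `θ` of `A` with `A/θ ∈ K`. -/
def RelCon {F : FirstOrder.Language.{0, 0}} [F.IsAlgebraic] (Q : Set (QuasiIdentity F))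
    (A : Type u) [F.Structure A] : Type u :=
  {θ : Congruence F A // InQuasivariety Q θ.Quot}

/-- Relative congruences are ordered by inclusion. -/
instance {F : FirstOrder.Language.{0, 0}} [F.IsAlgebraic] (Q : Set (QuasiIdentity F))
    (A : Type u) [F.Structure A] : LE (RelCon Q A) where
  le θ φ := ∀ x y : A, θ.1.rel x y → φ.1.rel x y

/-! ### Sanity checks on the definitions -/

section
variable {F : FirstOrder.Language.{0, 0}} {A : Type u} [F.Structure A]

theorem Congruence.cls_eq_cls (θ : Congruence F A) {a b : A} : θ.cls a = θ.cls b ↔ θ.rel a b :=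
  Quotient.eq (r := θ.rel)

theorem Congruence.cls_surjective (θ : Congruence F A) : Function.Surjective θ.cls :=
  Quotient.mk_surjective (s := θ.rel)

/-- The natural map `A → A/θ` is a homomorphism. -/
theorem Congruence.funMap_cls [F.IsAlgebraic] (θ : Congruence F A) {n : ℕ} (f : F.Functions n)
    (x : Fin n → A) : funMap f (fun i => θ.cls (x i)) = θ.cls (funMap f x) := by
  change θ.cls (funMap f (fun i => Quotient.out (θ.cls (x i)))) = _
  rw [θ.cls_eq_cls]
  apply θ.compat
  intro i
  exact Quotient.mk_out (s := θ.rel) (x i)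

end

/-! ### The signature -/

/-- The operation symbols: a constant `zero`, unary `p`, `q`, `j`, and binary `d`. -/
inductive Ops : ℕ → Type
  | zero : Ops 0
  | p : Ops 1
  | q : Ops 1
  | j : Ops 1
  | d : Ops 2

/-- The signature. -/
abbrev sig : FirstOrder.Language.{0, 0} := ⟨Ops, fun _ => Empty⟩

instance : sig.IsAlgebraic := fun _ => (inferInstance : IsEmpty Empty)

theorem finite_sig : Finite (Σ n, sig.Functions n) := by
  have : Function.Surjective (fun i : Fin 5 => (match i with
    | 0 => ⟨0, Ops.zero⟩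
    | 1 => ⟨1, Ops.p⟩
    | 2 => ⟨1, Ops.q⟩
    | 3 => ⟨1, Ops.j⟩
    | 4 => ⟨2, Ops.d⟩ : Σ n, sig.Functions n)) := by
    rintro ⟨n, f⟩
    cases f with
    | zero => exact ⟨0, rfl⟩
    | p => exact ⟨1, rfl⟩
    | q => exact ⟨2, rfl⟩
    | j => exact ⟨3, rfl⟩
    | d => exact ⟨4, rfl⟩
  exact Finite.of_surjective _ this

/-- The constant term. -/
def tZero : sig.Term ℕ := Term.func (Ops.zero : sig.Functions 0) ![]

/-- The variable `z`. -/
def tVar : sig.Term ℕ := Term.var 0

/-- Application of a unary symbol. -/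
def tUn (f : Ops 1) (t : sig.Term ℕ) : sig.Term ℕ := Term.func (f : sig.Functions 1) ![t]

/-- The quasi-identity `p z ≈ 0 ∧ q z ≈ 0 → z ≈ 0`. -/
def qi1 : QuasiIdentity sig := ⟨[(tUn Ops.p tVar, tZero), (tUn Ops.q tVar, tZero)], (tVar, tZero)⟩

/-- The quasi-identity `j z ≈ 0 → z ≈ 0`. -/
def qi2 : QuasiIdentity sig := ⟨[(tUn Ops.j tVar, tZero)], (tVar, tZero)⟩

/-- The axioms. -/
def axs : Set (QuasiIdentity sig) := {qi1, qi2}

section
variable {B : Type u} [sig.Structure B]

variable (B) in
/-- The constant of a `sig`-algebra. -/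
def z0 : B := funMap (L := sig) (n := 0) Ops.zero ![]

/-- A unary operation of a `sig`-algebra. -/
def un (f : Ops 1) (b : B) : B := funMap (L := sig) (n := 1) f ![b]

theorem realize_zero (v : ℕ → B) : tZero.realize v = z0 B := by
  simp only [tZero, Term.realize, z0]
  congr 1
  exact Subsingleton.elim _ _

theorem realize_un (f : Ops 1) (t : sig.Term ℕ) (v : ℕ → B) :
    (tUn f t).realize v = un f (t.realize v) := by
  simp only [tUn, Term.realize, un]
  congr 1
  funext i
  fin_cases i
  rfl

theorem holds_qi1 : qi1.Holds B ↔ ∀ b : B, un Ops.p b = z0 B → un Ops.q b = z0 B → b = z0 B := by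
  simp only [QuasiIdentity.Holds, qi1, List.mem_cons, List.not_mem_nil, or_false, forall_eq_or_imp,
    forall_eq, realize_zero, realize_un, tVar, Term.realize]
  constructor
  · intro h b h1 h2
    exact h (fun _ => b) ⟨h1, h2⟩
  · rintro h v ⟨h1, h2⟩
    exact h _ h1 h2

theorem holds_qi2 : qi2.Holds B ↔ ∀ b : B, un Ops.j b = z0 B → b = z0 B := by
  simp only [QuasiIdentity.Holds, qi2, List.mem_cons, List.not_mem_nil, or_false,
    forall_eq, realize_zero, realize_un, tVar, Term.realize]
  constructor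
  · intro h b h1
    exact h (fun _ => b) h1
  · rintro h v h1
    exact h _ h1

theorem inQ_iff : InQuasivariety axs B ↔
    (∀ b : B, un Ops.p b = z0 B → un Ops.q b = z0 B → b = z0 B) ∧
      (∀ b : B, un Ops.j b = z0 B → b = z0 B) := by
  rw [← holds_qi1, ← holds_qi2]
  simp [InQuasivariety, axs]

end

/-! ### The algebra -/

/-- The carrier of the algebra: pairs of elements of `S`. -/
@[ext] structure Alg (S : Type u) where
  /-- first coordinate -/
  x : S
  /-- second coordinate -/
  y : S

section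
variable {S : Type u} [SemilatticeSup S] [OrderBot S]

open Classical in
/-- The operations of the algebra. -/
noncomputable def Alg.op : {n : ℕ} → Ops n → (Fin n → Alg S) → Alg S
  | _, Ops.zero, _ => ⟨⊥, ⊥⟩
  | _, Ops.p, v => ⟨(v 0).x, (v 0).x⟩
  | _, Ops.q, v => ⟨(v 0).y, (v 0).y⟩
  | _, Ops.j, v => ⟨(v 0).x ⊔ (v 0).y, (v 0).x ⊔ (v 0).y⟩
  | _, Ops.d, v => if v 0 = v 1 then ⟨⊥, ⊥⟩ else v 0

/-- The algebra. -/
noncomputable instance : sig.Structure (Alg S) where
  funMap f v := Alg.op f v
  RelMap r := isEmptyElim r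

theorem z0_Alg : z0 (Alg S) = ⟨⊥, ⊥⟩ := rfl

theorem p_Alg (a : Alg S) : un Ops.p a = ⟨a.x, a.x⟩ := rfl

theorem q_Alg (a : Alg S) : un Ops.q a = ⟨a.y, a.y⟩ := rfl

theorem j_Alg (a : Alg S) : un Ops.j a = ⟨a.x ⊔ a.y, a.x ⊔ a.y⟩ := rfl

/-- Membership in `I × I`. -/
def Mem2 (I : Order.Ideal S) (a : Alg S) : Prop := a.x ∈ I ∧ a.y ∈ I

theorem mem2_zero (I : Order.Ideal S) : Mem2 I (z0 (Alg S)) := ⟨I.bot_mem, I.bot_mem⟩

/-- The Rees-type congruence attached to an ideal. -/
def reesRel (I : Order.Ideal S) : Setoid (Alg S) where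
  r a b := a = b ∨ (Mem2 I a ∧ Mem2 I b)
  iseqv :=
    { refl := fun a => Or.inl rfl
      symm := by
        rintro a b (h | ⟨h1, h2⟩)
        · exact Or.inl h.symm
        · exact Or.inr ⟨h2, h1⟩
      trans := by
        rintro a b c (h | ⟨h1, h2⟩) (h' | ⟨h3, h4⟩)
        · exact Or.inl (h.trans h')
        · exact Or.inr ⟨h ▸ h3, h4⟩
        · exact Or.inr ⟨h1, h' ▸ h2⟩
        · exact Or.inr ⟨h1, h4⟩ }

omit [OrderBot S] in
theorem reesRel_iff (I : Order.Ideal S) (a b : Alg S) :
    reesRel I a b ↔ (a = b ∨ (Mem2 I a ∧ Mem2 I b)) := Iff.rfl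

theorem rees_compat (I : Order.Ideal S) {n : ℕ} (f : Ops n) (v w : Fin n → Alg S)
    (h : ∀ i, reesRel I (v i) (w i)) : reesRel I (Alg.op f v) (Alg.op f w) := by
  classical
  cases f with
  | zero => exact Or.inl rfl
  | p =>
    rcases h 0 with h0 | ⟨h1, h2⟩
    · left
      simp only [Alg.op, h0]
    · exact Or.inr ⟨⟨h1.1, h1.1⟩, ⟨h2.1, h2.1⟩⟩
  | q =>
    rcases h 0 with h0 | ⟨h1, h2⟩
    · left
      simp only [Alg.op, h0]
    · exact Or.inr ⟨⟨h1.2, h1.2⟩, ⟨h2.2, h2.2⟩⟩
  | j =>
    rcases h 0 with h0 | ⟨h1, h2⟩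
    · left
      simp only [Alg.op, h0]
    · exact Or.inr ⟨⟨I.sup_mem h1.1 h1.2, I.sup_mem h1.1 h1.2⟩,
        ⟨I.sup_mem h2.1 h2.2, I.sup_mem h2.1 h2.2⟩⟩
  | d =>
    have hz : Mem2 I (⟨⊥, ⊥⟩ : Alg S) := mem2_zero I
    have h0 := h 0
    have h1 := h 1
    rw [reesRel_iff] at h0 h1 ⊢
    simp only [Alg.op]
    by_cases hx : Mem2 I (v 0)
    · -- both values lie in `I × I`
      have hy : Mem2 I (w 0) := by
        rcases h0 with h0 | h0
        · exact h0 ▸ hx
        · exact h0.2
      right
      constructor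
      · split_ifs
        · exact hz
        · exact hx
      · split_ifs
        · exact hz
        · exact hy
    · have h0' : v 0 = w 0 := by
        rcases h0 with h0 | h0
        · exact h0
        · exact absurd h0.1 hx
      left
      rcases h1 with h1 | h1
      · rw [h0', h1]
      · have hx1 : v 0 ≠ v 1 := fun e => hx (e ▸ h1.1)
        have hy1 : w 0 ≠ w 1 := fun e => hx (h0' ▸ e ▸ h1.2)
        rw [if_neg hx1, if_neg hy1, h0']

/-- The congruence attached to an ideal. -/
def rees (I : Order.Ideal S) : Congruence sig (Alg S) where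
  rel := reesRel I
  compat f v w h := rees_compat I f v w h

theorem un_cls (θ : Congruence sig (Alg S)) (f : Ops 1) (a : Alg S) :
    un f (θ.cls a) = θ.cls (un f a) := by
  have := θ.funMap_cls (n := 1) f ![a]
  unfold un
  rw [← this]
  congr 1
  funext i
  fin_cases i
  rfl

theorem z0_cls (θ : Congruence sig (Alg S)) : z0 θ.Quot = θ.cls (z0 (Alg S)) := by
  have := θ.funMap_cls (n := 0) Ops.zero ![]
  unfold z0
  rw [← this]
  congr 1
  exact Subsingleton.elim _ _

theorem inQ_quot_iff (θ : Congruence sig (Alg S)) : InQuasivariety axs θ.Quot ↔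
    (∀ a : Alg S, θ.rel (un Ops.p a) (z0 _) → θ.rel (un Ops.q a) (z0 _) → θ.rel a (z0 _)) ∧
      (∀ a : Alg S, θ.rel (un Ops.j a) (z0 _) → θ.rel a (z0 _)) := by
  rw [inQ_iff, z0_cls]
  constructor
  · rintro ⟨h1, h2⟩
    constructor
    · intro a
      simpa only [un_cls, θ.cls_eq_cls] using h1 (θ.cls a)
    · intro a
      simpa only [un_cls, θ.cls_eq_cls] using h2 (θ.cls a)
  · rintro ⟨h1, h2⟩
    constructor
    · intro b
      obtain ⟨a, ha⟩ := θ.cls_surjective b
      rw [← ha]
      simpa only [un_cls, θ.cls_eq_cls] using h1 a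
    · intro b
      obtain ⟨a, ha⟩ := θ.cls_surjective b
      rw [← ha]
      simpa only [un_cls, θ.cls_eq_cls] using h2 a

theorem rees_zero_iff (I : Order.Ideal S) (a : Alg S) :
    (rees I).rel a (z0 _) ↔ Mem2 I a := by
  change (a = z0 _ ∨ (Mem2 I a ∧ Mem2 I (z0 _))) ↔ _
  constructor
  · rintro (rfl | h)
    · exact mem2_zero I
    · exact h.1
  · intro h
    exact Or.inr ⟨h, mem2_zero I⟩

theorem rees_mem (I : Order.Ideal S) : InQuasivariety axs (rees I).Quot := by
  rw [inQ_quot_iff]
  simp only [rees_zero_iff]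
  constructor
  · intro a hp hq
    exact ⟨hp.1, hq.1⟩
  · intro a hj
    exact ⟨I.lower le_sup_left hj.1, I.lower le_sup_right hj.1⟩

theorem alg_mem : InQuasivariety axs (Alg S) := by
  rw [inQ_iff]
  constructor
  · intro a hp hq
    have h1 : a.x = ⊥ := congrArg Alg.x hp
    have h2 : a.y = ⊥ := congrArg Alg.x hq
    exact Alg.ext h1 h2
  · intro a hj
    have h1 : a.x ⊔ a.y = ⊥ := congrArg Alg.x hj
    rw [sup_eq_bot_iff] at h1
    exact Alg.ext h1.1 h1.2

/-- Compatibility of a congruence with the operations, in convenient form. -/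
theorem cong_un (θ : Congruence sig (Alg S)) (f : Ops 1) {a b : Alg S} (h : θ.rel a b) :
    θ.rel (un f a) (un f b) := by
  apply θ.compat
  intro i
  fin_cases i
  exact h

theorem cong_zero (θ : Congruence sig (Alg S)) {a b : Alg S} (h : θ.rel a b) (hne : a ≠ b) :
    θ.rel a (z0 _) := by
  classical
  have h1 := θ.compat (n := 2) Ops.d ![a, b] ![b, b] (by
    intro i
    fin_cases i
    · exact h
    · exact θ.rel.refl b)
  have e1 : funMap (L := sig) (n := 2) Ops.d ![a, b] = a := if_neg hne
  have e2 : funMap (L := sig) (n := 2) Ops.d ![b, b] = z0 (Alg S) := if_pos rfl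
  rw [e1, e2] at h1
  exact h1

/-- The ideal attached to a relative congruence. -/
def idealOf (θ : RelCon axs (Alg S)) : Order.Ideal S where
  carrier := {s | θ.1.rel ⟨s, s⟩ (z0 (Alg S))}
  lower' := by
    intro y x hxy hy
    have hj : θ.1.rel (un Ops.j (⟨x, y⟩ : Alg S)) (z0 _) := by
      have e : un Ops.j (⟨x, y⟩ : Alg S) = ⟨y, y⟩ := by
        rw [j_Alg]
        simp only [sup_eq_right.mpr hxy]
      rw [e]
      exact hy
    have h2 := ((inQ_quot_iff θ.1).1 θ.2).2 _ hj
    exact cong_un θ.1 Ops.p h2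
  nonempty' := ⟨⊥, θ.1.rel.refl (z0 (Alg S))⟩
  directed' := by
    intro x hx y hy
    refine ⟨x ⊔ y, ?_, le_sup_left, le_sup_right⟩
    have h1 := ((inQ_quot_iff θ.1).1 θ.2).1 ⟨x, y⟩ hx hy
    have h2 := cong_un θ.1 Ops.j h1
    have h3 : un Ops.j (z0 (Alg S)) = z0 (Alg S) := by
      rw [j_Alg, z0_Alg]
      simp only [sup_idem]
    rw [h3] at h2
    exact h2

theorem mem_idealOf (θ : RelCon axs (Alg S)) (s : S) :
    s ∈ idealOf θ ↔ θ.1.rel ⟨s, s⟩ (z0 (Alg S)) := Iff.rfl

theorem rel_zero_iff (θ : RelCon axs (Alg S)) (a : Alg S) :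
    θ.1.rel a (z0 _) ↔ Mem2 (idealOf θ) a := by
  constructor
  · intro h
    exact ⟨cong_un θ.1 Ops.p h, cong_un θ.1 Ops.q h⟩
  · rintro ⟨h1, h2⟩
    exact ((inQ_quot_iff θ.1).1 θ.2).1 a h1 h2

theorem rel_iff (θ : RelCon axs (Alg S)) (a b : Alg S) :
    θ.1.rel a b ↔ (a = b ∨ (Mem2 (idealOf θ) a ∧ Mem2 (idealOf θ) b)) := by
  rw [← rel_zero_iff, ← rel_zero_iff]
  constructor
  · intro h
    by_cases hab : a = b
    · exact Or.inl hab
    · exact Or.inr ⟨cong_zero θ.1 h hab, cong_zero θ.1 (θ.1.rel.symm h) (Ne.symm hab)⟩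
  · rintro (rfl | ⟨h1, h2⟩)
    · exact θ.1.rel.refl _
    · exact θ.1.rel.trans h1 (θ.1.rel.symm h2)

/-- The relative congruence attached to an ideal. -/
def reesK (I : Order.Ideal S) : RelCon axs (Alg S) := ⟨rees I, rees_mem I⟩

theorem idealOf_reesK (I : Order.Ideal S) : idealOf (reesK I) = I := by
  apply SetLike.ext
  intro s
  rw [mem_idealOf]
  exact (rees_zero_iff I _).trans ⟨fun h => h.1, fun h => ⟨h, h⟩⟩

theorem relCon_ext {F : FirstOrder.Language.{0, 0}} [F.IsAlgebraic] {Q : Set (QuasiIdentity F)}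
    {A : Type u} [F.Structure A] (θ φ : RelCon Q A)
    (h : ∀ x y : A, θ.1.rel x y ↔ φ.1.rel x y) : θ = φ := by
  obtain ⟨⟨r, hr⟩, hθ⟩ := θ
  obtain ⟨⟨s, hs⟩, hφ⟩ := φ
  have : r = s := Setoid.ext h
  subst this
  rfl

theorem reesK_idealOf (θ : RelCon axs (Alg S)) : reesK (idealOf θ) = θ := by
  apply relCon_ext
  intro x y
  rw [rel_iff θ]
  rfl

theorem reesK_le_iff (I J : Order.Ideal S) : reesK I ≤ reesK J ↔ I ≤ J := by
  constructor
  · intro h s hs
    have h1 : (rees I).rel ⟨s, s⟩ (z0 _) := (rees_zero_iff I _).2 ⟨hs, hs⟩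
    have h2 := h _ _ h1
    exact ((rees_zero_iff J _).1 h2).1
  · rintro h x y (h1 | ⟨h1, h2⟩)
    · exact Or.inl h1
    · exact Or.inr ⟨⟨h h1.1, h h1.2⟩, ⟨h h2.1, h h2.2⟩⟩

variable (S) in
/-- Ideals of `S` and relative congruences of the algebra correspond. -/
def idealIso : Order.Ideal S ≃o RelCon axs (Alg S) where
  toFun := reesK
  invFun := idealOf
  left_inv := idealOf_reesK
  right_inv := reesK_idealOf
  map_rel_iff' := reesK_le_iff _ _

end

/-! ### Ideals of compact elements -/

section
variable (L : Type u) [CompleteLattice L]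

/-- The set of compact elements of `L`. -/
abbrev Cpt : Type u := {x : L // IsCompactElement x}

variable {L}

theorem isCompact_bot : IsCompactElement (⊥ : L) := by
  intro s u hs _ _ _
  obtain ⟨x, hx⟩ := hs
  exact ⟨x, hx, bot_le⟩

theorem isCompact_sup {a b : L} (ha : IsCompactElement a) (hb : IsCompactElement b) :
    IsCompactElement (a ⊔ b) := by
  intro s u hs hd hu hab
  obtain ⟨x, hx, hax⟩ := ha s u hs hd hu (le_sup_left.trans hab)
  obtain ⟨y, hy, hby⟩ := hb s u hs hd hu (le_sup_right.trans hab)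
  obtain ⟨z, hz, hxz, hyz⟩ := hd x hx y hy
  exact ⟨z, hz, sup_le (hax.trans hxz) (hby.trans hyz)⟩

noncomputable instance : SemilatticeSup (Cpt L) :=
  Subtype.semilatticeSup (fun _ _ h1 h2 => isCompact_sup h1 h2)

noncomputable instance : OrderBot (Cpt L) := Subtype.orderBot isCompact_bot

/-- The ideal of compact elements below `x`. -/
def below (x : L) : Order.Ideal (Cpt L) where
  carrier := {c | c.1 ≤ x}
  lower' := by
    intro a b hab ha
    exact le_trans (show b.1 ≤ a.1 from hab) ha
  nonempty' := ⟨⟨⊥, isCompact_bot⟩, show (⊥ : L) ≤ x from bot_le⟩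
  directed' := by
    intro a ha b hb
    exact ⟨⟨a.1 ⊔ b.1, isCompact_sup a.2 b.2⟩, show a.1 ⊔ b.1 ≤ x from sup_le ha hb,
      show a.1 ≤ a.1 ⊔ b.1 from le_sup_left, show b.1 ≤ a.1 ⊔ b.1 from le_sup_right⟩

theorem mem_below (x : L) (c : Cpt L) : c ∈ below x ↔ c.1 ≤ x := Iff.rfl

variable (L) in
/-- An algebraic lattice is isomorphic to the ideal lattice of its compact elements. -/
def belowIso [IsCompactlyGenerated L] : L ≃o Order.Ideal (Cpt L) where
  toFun := below
  invFun I := sSup (Subtype.val '' (I : Set (Cpt L)))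
  left_inv x := by
    apply le_antisymm
    · apply sSup_le
      rintro _ ⟨c, hc, rfl⟩
      exact hc
    · rw [le_iff_compact_le_imp]
      intro c hc hcx
      exact le_sSup ⟨⟨c, hc⟩, hcx, rfl⟩
  right_inv I := by
    apply SetLike.ext
    intro c
    rw [mem_below]
    constructor
    · intro h
      obtain ⟨_, ⟨d, hd, rfl⟩, hcd⟩ := c.2 (Subtype.val '' (I : Set (Cpt L))) _
        (I.nonempty.image _) (by
          rintro _ ⟨a, ha, rfl⟩ _ ⟨b, hb, rfl⟩
          obtain ⟨e, he, hae, hbe⟩ := I.directed a ha b hb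
          exact ⟨e.1, ⟨e, he, rfl⟩, hae, hbe⟩) (isLUB_sSup _) h
      exact I.lower (show c ≤ d from hcd) hd
    · intro h
      exact le_sSup ⟨c, h, rfl⟩
  map_rel_iff' := by
    intro x y
    constructor
    · intro h
      rw [le_iff_compact_le_imp]
      intro c hc hcx
      exact h (show (⟨c, hc⟩ : Cpt L) ∈ below x from hcx)
    · intro h c hc
      exact le_trans (show c.1 ≤ x from hc) h

end

/-- **Main theorem.**  There are a finite signature `F` (without relation symbols) and a finite set
`Q` of quasi-identities in `F`, defining a quasivariety `K`, such that every algebraic lattice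
(a complete lattice in which every element is a supremum of compact elements) is isomorphic to the
lattice of `K`-congruences of some algebra `A ∈ K`. -/
theorem result :
    ∃ (F : FirstOrder.Language.{0, 0}) (_ : F.IsAlgebraic) (Q : Set (QuasiIdentity F)),
      Finite (Σ n, F.Functions n) ∧ Q.Finite ∧
        ∀ (L : Type u) [CompleteLattice L] [IsCompactlyGenerated L],
          ∃ (A : Type u) (_ : F.Structure A),
            InQuasivariety Q A ∧ Nonempty (L ≃o RelCon Q A) := by
  refine ⟨sig, inferInstance, axs, finite_sig, ?_, ?_⟩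
  · exact (Set.finite_singleton qi2).insert qi1
  · intro L _ _
    exact ⟨Alg (Cpt L), inferInstance, alg_mem, ⟨(belowIso L).trans (idealIso (Cpt L))⟩⟩

end Pool.Agent.Results.MP_f5a18c_al.EveryAlgebraicLattice
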